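import Pool.Agent.H992.BE.Defs

/-!
# Countably many characters determine the law (BE12)
-/

set_option autoImplicit false
open MeasureTheory Filter Topology Complex

namespace Pool.Agent.H356.BE

open Pool.Agent.H992.BE
open Pool.Agent.H992.LB
open Pool.Agent.N661.BR (MW lin meas_eval)

theorem rat_cont (μ : Measure MW) [IsFiniteMeasure μ] (k : ℕ) :
    Continuous fun p : (Fin k → ℂ) × (Fin k → ℝ) =>
      ∫ f, Complex.exp (I * (lin p.1 p.2 f : ℝ)) ∂μ := by
  refine continuous_of_dominated (bound := fun _ => 1) (fun p => ?_)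
    (fun p => Eventually.of_forall fun f => ?_) (integrable_const _)
    (Eventually.of_forall fun f => ?_)
  · have := meas_lin p.1 p.2
    exact Measurable.aestronglyMeasurable (by fun_prop)
  · rw [mul_comm, Complex.norm_exp_ofReal_mul_I]
  · have hf : Continuous (fun z : ℂ => f z) := (toC f).continuous
    have hj : ∀ j : Fin k, Continuous fun p : (Fin k → ℂ) × (Fin k → ℝ) => f (p.1 j) := fun j =>
      hf.comp ((continuous_apply j).comp continuous_fst)
    unfold lin
    have h1 : Continuous fun p : (Fin k → ℂ) × (Fin k → ℝ) => ∑ j, p.2 j * f (p.1 j) :=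
      continuous_finsetSum _ fun j _ => ((continuous_apply j).comp continuous_snd).mul (hj j)
    exact Complex.continuous_exp.comp (continuous_const.mul (Complex.continuous_ofReal.comp h1))

theorem rat : S_Rat := by
  let d : ∀ i : ℕ, (Fin (Nat.unpair i).1 → ℂ) × (Fin (Nat.unpair i).1 → ℝ) := fun i =>
    TopologicalSpace.denseSeq ((Fin (Nat.unpair i).1 → ℂ) × (Fin (Nat.unpair i).1 → ℝ))
      (Nat.unpair i).2
  refine ⟨fun i => (Nat.unpair i).1, fun i => (d i).1, fun i => (d i).2, fun μ ν hμ hν h => ?_⟩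
  refine ext_MW μ ν fun k w t => ?_
  have h1 := rat_cont μ k
  have h2 := rat_cont ν k
  have hd := TopologicalSpace.denseRange_denseSeq ((Fin k → ℂ) × (Fin k → ℝ))
  have h3 : (fun p : (Fin k → ℂ) × (Fin k → ℝ) =>
      ∫ f, Complex.exp (I * (lin p.1 p.2 f : ℝ)) ∂μ) =
      fun p => ∫ f, Complex.exp (I * (lin p.1 p.2 f : ℝ)) ∂ν := by
    refine hd.equalizer h1 h2 ?_
    funext j
    have h4 : ∀ a b : ℕ, (a, b) = Nat.unpair (Nat.pair a b) := fun a b =>
      (Nat.unpair_pair a b).symm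
    have h5 := h (Nat.pair k j)
    have key : ∀ q : ℕ × ℕ, q = (k, j) → (∫ f, Complex.exp (I * (lin
        (TopologicalSpace.denseSeq ((Fin q.1 → ℂ) × (Fin q.1 → ℝ)) q.2).1
        (TopologicalSpace.denseSeq ((Fin q.1 → ℂ) × (Fin q.1 → ℝ)) q.2).2 f : ℝ)) ∂μ =
        ∫ f, Complex.exp (I * (lin
        (TopologicalSpace.denseSeq ((Fin q.1 → ℂ) × (Fin q.1 → ℝ)) q.2).1
        (TopologicalSpace.denseSeq ((Fin q.1 → ℂ) × (Fin q.1 → ℝ)) q.2).2 f : ℝ)) ∂ν) →
        (∫ f, Complex.exp (I * (lin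
        (TopologicalSpace.denseSeq ((Fin k → ℂ) × (Fin k → ℝ)) j).1
        (TopologicalSpace.denseSeq ((Fin k → ℂ) × (Fin k → ℝ)) j).2 f : ℝ)) ∂μ =
        ∫ f, Complex.exp (I * (lin
        (TopologicalSpace.denseSeq ((Fin k → ℂ) × (Fin k → ℝ)) j).1
        (TopologicalSpace.denseSeq ((Fin k → ℂ) × (Fin k → ℝ)) j).2 f : ℝ)) ∂ν) := by
      rintro q rfl h6
      exact h6
    exact key _ (Nat.unpair_pair k j) h5
  exact congrFun h3 (w, t)

end Pool.Agent.H356.BE
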